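import Pool.Agent.H71.SLP.Stmts
import Pool.Agent.H2.SLP.Fine
import Pool.Agent.H18.PB.Row
import Pool.Agent.H35.K2S.Dich

/-!
# Fine rows (FNR)

In a block of rows which is not full there is a place with `2 B` consecutive shorter blocks which
are not full (`Pool.FINE2.fine_run` for the normalised row function of one family).
-/

set_option autoImplicit false

namespace Pool.SLF

open Finset Real
open Pool.Agent.H49.Ent Pool.Agent.H32.Dense Pool.STK Pool.KA Pool.KSAT Pool.K2S Pool.PB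
open Pool.KAF

variable {m J : ℕ}

/-- The fullness of the first `n` rows after the row `r₀`, normalised. -/
noncomputable def fnf (F : Fam m J) (A : F.Ω → Prop) (N r₀ n : ℕ) : ℝ :=
  ∑ r ∈ range n, (1 - DD F A N (r₀ + r) / (m + 1))

theorem fnf_succ (F : Fam m J) (A : F.Ω → Prop) (N r₀ n : ℕ) :
    fnf F A N r₀ (n + 1) = fnf F A N r₀ n + (1 - DD F A N (r₀ + n) / (m + 1)) := by
  unfold fnf
  rw [Finset.sum_range_succ]

theorem fnf_mono (F : Fam m J) {A : F.Ω → Prop}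
    (hlaw : IsLaw (Pool.Agent.H49.Ent.cond F.p A True)) (N r₀ : ℕ) :
    Monotone (fnf F A N r₀) := by
  refine monotone_nat_of_le_succ fun n => ?_
  rw [fnf_succ]
  have h1 := DD_le F hlaw N (r₀ + n)
  have hm : (0 : ℝ) < m + 1 := by positivity
  have h2 : DD F A N (r₀ + n) / (m + 1) ≤ 1 := by
    rw [div_le_one hm]
    linarith
  linarith

theorem fnf_inc (F : Fam m J) {A : F.Ω → Prop}
    (hlaw : IsLaw (Pool.Agent.H49.Ent.cond F.p A True)) {N : ℕ} (hu : 0 < J / N) (r₀ n : ℕ) :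
    fnf F A N r₀ (n + 1) ≤ fnf F A N r₀ n + 1 := by
  rw [fnf_succ]
  have h1 := DD_nonneg F hlaw hu (r₀ + n)
  have h2 : 0 ≤ DD F A N (r₀ + n) / (m + 1) := by positivity
  linarith

theorem fnf_sub (F : Fam m J) (A : F.Ω → Prop) (N r₀ : ℕ) {a b : ℕ} (h : a ≤ b) :
    fnf F A N r₀ b - fnf F A N r₀ a =
      ((b : ℝ) - a) - (∑ r ∈ Ico (r₀ + a) (r₀ + b), DD F A N r) / (m + 1) := by
  unfold fnf
  rw [← Finset.sum_Ico_eq_sub _ h]
  have e : ∑ r ∈ Ico (r₀ + a) (r₀ + b), DD F A N r = ∑ r ∈ Ico a b, DD F A N (r₀ + r) := by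
    have := Finset.sum_Ico_add (fun r => DD F A N r) a b r₀
    rw [this, add_comm a, add_comm b]
  rw [e, Finset.sum_sub_distrib, Finset.sum_const, Nat.card_Ico, nsmul_eq_mul, Nat.cast_sub h,
    mul_one, Finset.sum_div]

theorem fnf_iff (F : Fam m J) (A : F.Ω → Prop) (N r₀ : ℕ) {a b : ℕ} (h : a ≤ b) (c : ℝ) :
    fnf F A N r₀ b - fnf F A N r₀ a ≤ (1 - c / (m + 1)) * ((b : ℝ) - a) ↔
      c * ((b : ℝ) - a) ≤ ∑ r ∈ Ico (r₀ + a) (r₀ + b), DD F A N r := by
  rw [fnf_sub F A N r₀ h]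
  have hm : (0 : ℝ) < m + 1 := by positivity
  have e : (1 - c / (m + 1)) * ((b : ℝ) - a) = ((b : ℝ) - a) - (c * ((b : ℝ) - a)) / (m + 1) := by
    ring
  rw [e]
  constructor
  · intro h1
    have h2 : (c * ((b : ℝ) - a)) / (m + 1) ≤
        (∑ r ∈ Ico (r₀ + a) (r₀ + b), DD F A N r) / (m + 1) := by linarith
    rwa [div_le_div_iff_of_pos_right hm] at h2
  · intro h1
    have h2 : (c * ((b : ℝ) - a)) / (m + 1) ≤
        (∑ r ∈ Ico (r₀ + a) (r₀ + b), DD F A N r) / (m + 1) := by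
      rwa [div_le_div_iff_of_pos_right hm]
    linarith

/-- The degenerate mesh. -/
theorem Zr_deg (F : Fam m J) {A : F.Ω → Prop}
    (hlaw : IsLaw (Pool.Agent.H49.Ent.cond F.p A True)) {N : ℕ} (hu : J / N = 0) (c : ℝ)
    (p p' : ℕ) : Zr F c N p p' A := by
  unfold Zr Zm
  rw [hu, Nat.mul_zero, Nat.mul_zero]
  have h0 : CH (Pool.Agent.H49.Ent.cond F.p A True) (F.X 0) (fun ω => (F.X 0 ω, F.W ω)) = 0 :=
    CH_eq_zero hlaw.nonneg (fun ω ω' _ _ h => (Prod.ext_iff.1 h).1)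
  rw [h0]
  simp

/-- **(FNR)** -/
theorem fnr_thm (m : ℕ) : FNR m := by
  intro c B hc _
  have hm : (0 : ℝ) < m + 1 := by positivity
  obtain ⟨j₀, hj₀⟩ := Pool.FINE2.fine_run (c / 2 / (m + 1)) (by positivity) B 2 1 le_rfl
  obtain ⟨q, hq⟩ : ∃ q : ℕ, q = 2 ^ (j₀ + 1) := ⟨_, rfl⟩
  have hq0 : 0 < q := by rw [hq]; positivity
  obtain ⟨n₁, hn₁⟩ := exists_nat_ge (2 * m * q / c)
  refine ⟨2 * q + n₁ + 2 * (2 * B + 1), by omega, ?_⟩
  intro J F A N L R hA hΛ hLR hRN hZ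
  have hlaw : IsLaw (Pool.Agent.H49.Ent.cond F.p A True) := isLaw_cond F.isLaw hA
  rcases Nat.eq_zero_or_pos (J / N) with hu | hu
  · -- the degenerate mesh
    obtain ⟨l, hl⟩ : ∃ l, l = L / (2 * B + 1) := ⟨_, rfl⟩
    have h1 : (2 * B + 1) * l ≤ L := by rw [hl]; exact Nat.mul_div_le L (2 * B + 1)
    have h2 : L < (2 * B + 1) * (l + 1) := by
      rw [hl]
      exact Nat.lt_mul_div_succ L (by omega)
    have hl0 : 0 < l := by
      rcases Nat.eq_zero_or_pos l with h | h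
      · rw [h] at h2
        omega
      · exact h
    have e1 : (2 * B + 1) * l = B * l + B * l + l := by ring
    refine ⟨l, R - L + B * l, hl0, ?_, le_rfl, by omega, by omega, fun j _ =>
      Zr_deg F hlaw hu _ _ _⟩
    have h3 : (2 * B + 1) * (l + 1) ≤ (2 * B + 1) * (2 * l) :=
      Nat.mul_le_mul_left _ (by omega)
    have h4 : (2 * B + 1) * (2 * l) = (2 * (2 * B + 1)) * l := by ring
    have h5 : (2 * (2 * B + 1)) * l ≤ (2 * q + n₁ + 2 * (2 * B + 1)) * l :=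
      Nat.mul_le_mul_right _ (by omega)
    omega
  -- the block whose length is a multiple of `q`
  obtain ⟨L', hL'⟩ : ∃ L', L' = q * (L / q) := ⟨_, rfl⟩
  have hL1 : L' ≤ L := by rw [hL']; exact Nat.mul_div_le L q
  have hL2 : L < L' + q := by
    have := Nat.lt_mul_div_succ L hq0
    rw [hL']
    have e : q * (L / q + 1) = q * (L / q) + q := by ring
    omega
  have hL'0 : 0 < L' := by omega
  obtain ⟨r₀, hr₀⟩ : ∃ r₀, r₀ = R - L' := ⟨_, rfl⟩
  have hr0 : r₀ + L' = R := by omega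
  have hD0 := DD_nonneg F hlaw hu
  have hD1 := DD_le F hlaw N
  -- the deficits of the block
  have h1 := (Zr_iff F hlaw hu (by omega : R - L ≤ R)).1 hZ
  have e0 : (R : ℝ) - ((R - L : ℕ) : ℝ) = L := by
    rw [Nat.cast_sub hLR]
    ring
  rw [e0] at h1
  have h2 : ∑ r ∈ Ico (R - L) R, DD F A N r =
      ∑ r ∈ Ico (R - L) r₀, DD F A N r + ∑ r ∈ Ico r₀ R, DD F A N r :=
    (Finset.sum_Ico_consecutive _ (by omega) (by omega)).symm
  have h3 : ∑ r ∈ Ico (R - L) r₀, DD F A N r ≤ q * m := by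
    calc ∑ r ∈ Ico (R - L) r₀, DD F A N r ≤ ∑ _r ∈ Ico (R - L) r₀, (m : ℝ) :=
          Finset.sum_le_sum fun r _ => hD1 r
      _ = ((r₀ - (R - L) : ℕ) : ℝ) * m := by
          rw [Finset.sum_const, Nat.card_Ico, nsmul_eq_mul]
      _ ≤ q * m := by
          refine mul_le_mul_of_nonneg_right ?_ (Nat.cast_nonneg m)
          exact_mod_cast (by omega : r₀ - (R - L) ≤ q)
  have h4 : 2 * m * q ≤ c * L := by
    have f1 : (n₁ : ℝ) ≤ L := by exact_mod_cast (by omega : n₁ ≤ L)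
    have f2 : 2 * m * q / c ≤ L := hn₁.trans f1
    rw [div_le_iff₀ hc] at f2
    linarith
  have h5 : c / 2 * L' ≤ ∑ r ∈ Ico r₀ R, DD F A N r := by
    have f1 : (L' : ℝ) ≤ L := by exact_mod_cast hL1
    have f2 : c * L' ≤ c * L := mul_le_mul_of_nonneg_left f1 hc.le
    have f3 : (0 : ℝ) ≤ (q : ℝ) * m := by positivity
    rw [h2] at h1
    linarith
  -- the run
  obtain ⟨j, hj, h, -, hh0, hhL, hrun⟩ := hj₀ (fnf F A N r₀) (fnf_mono F hlaw N r₀)
    (fnf_inc F hlaw hu r₀) L' hL'0 (by rw [← hq, hL']; exact dvd_mul_right q _)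
  obtain ⟨R₀, -, hR1, hR2, hR3⟩ := hrun 0 Nat.one_pos (by
    have f1 := (fnf_iff F A N r₀ (Nat.zero_le L') (c / 2)).2 (by
      rw [Nat.cast_zero, sub_zero, Nat.add_zero, hr0]
      exact h5)
    rw [Nat.cast_zero, sub_zero] at f1
    rw [Nat.zero_add, Nat.one_mul, Nat.zero_mul]
    exact f1)
  rw [Nat.zero_add, Nat.one_mul] at hR2
  have e1 : (2 * B + 1) * h = B * h + B * h + h := by ring
  refine ⟨h, r₀ + R₀ + B * h, hh0, ?_, by omega, by omega, by omega, fun i hi => ?_⟩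
  · -- the length
    have f1 : L ≤ 2 * L' := by omega
    have f2 : h * 2 ^ (j + 1) ≤ h * q := by
      rw [hq]
      exact Nat.mul_le_mul_left _ (Nat.pow_le_pow_right (by omega) (by omega))
    have f3 : (2 * q) * h ≤ (2 * q + n₁ + 2 * (2 * B + 1)) * h :=
      Nat.mul_le_mul_right _ (by omega)
    have f4 : (2 * q) * h = 2 * (h * q) := by ring
    omega
  · -- the rows
    have f1 := hR3 i (by omega)
    have hii : R₀ + i * h ≤ R₀ + (i + 1) * h :=
      Nat.add_le_add_left (Nat.mul_le_mul_right _ (Nat.le_succ i)) _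
    have e2 : (((R₀ + (i + 1) * h : ℕ) : ℝ) - ((R₀ + i * h : ℕ) : ℝ)) = h := by
      push_cast
      ring
    have f2 := (fnf_iff F A N r₀ hii (c / 4)).1 (by
      rw [e2]
      refine f1.trans (le_of_eq ?_)
      ring)
    have e3 : r₀ + R₀ + B * h + i * h - B * h = r₀ + (R₀ + i * h) := by omega
    have e4 : r₀ + R₀ + B * h + (i + 1) * h - B * h = r₀ + (R₀ + (i + 1) * h) := by omega
    rw [e3, e4]
    refine (Zr_iff F hlaw hu (Nat.add_le_add_left hii r₀)).2 ?_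
    have e5 : (((r₀ + (R₀ + (i + 1) * h) : ℕ) : ℝ) - ((r₀ + (R₀ + i * h) : ℕ) : ℝ)) =
        (((R₀ + (i + 1) * h : ℕ) : ℝ) - ((R₀ + i * h : ℕ) : ℝ)) := by
      push_cast
      ring
    rw [e5]
    exact f2

end Pool.SLF
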